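import Pool.Agent.W40.TC.Fin

open Filter

namespace Pool.Agent.Results.MP_67227b_nt.CloseTriples

/-- multiplicity of `s` as a zero of the Riemann zeta function (order of vanishing at `s`) -/
noncomputable def zmult (s : ℂ) : ℕ := analyticOrderNatAt riemannZeta s

/-- the number of nontrivial zeros of `ζ` with ordinate in `(0, t]`, with multiplicity -/
noncomputable def NZ (t : ℝ) : ℕ :=
  ∑ᶠ s ∈ {s : ℂ | riemannZeta s = 0 ∧ 0 < s.re ∧ s.re < 1 ∧ 0 < s.im ∧ s.im ≤ t}, zmult s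

/-- for `n ≥ 1`: the `n`-th positive ordinate `γ n` of a nontrivial zero of `ζ`, the ordinates being
listed in nondecreasing order and repeated according to multiplicity -/
noncomputable def γ (n : ℕ) : ℝ := sInf {t : ℝ | n ≤ NZ t}

/-- `N_k(T; B)` with `k = r + 1` and `B = ∏ [a_i, b_i]`: the number of `k`-tuples of pairwise
distinct indices with ordinates at most `T` whose normalised differences with the last ordinate
lie in the box `B` -/
noncomputable def Nk (r : ℕ) (T : ℝ) (a b : Fin r → ℝ) : ℕ :=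
  {j : Fin (r + 1) → ℕ | Function.Injective j ∧ (∀ i, 1 ≤ j i ∧ γ (j i) ≤ T) ∧
    ∀ i : Fin r, (γ (j i.castSucc) - γ (j (Fin.last r))) * (Real.log T / (2 * Real.pi)) ∈
      Set.Icc (a i) (b i)}.ncard

/-- the number of indices `n` with `γ n ≤ T` for which at least `m` indices `i` (`i = n` included)
satisfy `|γ i - γ n| * log T / 2π ≤ β` -/
noncomputable def clusters (m : ℕ) (T β : ℝ) : ℕ :=
  {n : ℕ | 1 ≤ n ∧ γ n ≤ T ∧
    m ≤ {i : ℕ | 1 ≤ i ∧ |γ i - γ n| * (Real.log T / (2 * Real.pi)) ≤ β}.ncard}.ncard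

/-- `G(β) = (53/60 - 79/600 (π β)^2)^2` -/
noncomputable def G (β : ℝ) : ℝ := (53 / 60 - 79 / 600 * (Real.pi * β) ^ 2) ^ 2

theorem box2 {T β : ℝ} (hT : 1 < T) :
    {j : Fin 2 → ℕ | Function.Injective j ∧ (∀ i, 1 ≤ j i ∧ γ (j i) ≤ T) ∧
      ∀ i : Fin 1, (γ (j i.castSucc) - γ (j (Fin.last 1))) * (Real.log T / (2 * Real.pi)) ∈
        Set.Icc (-β) β} ⊆ Pool.Agent.W40.TCI.P2 T (2 * Real.pi * β / Real.log T) := by
  have hl := Real.log_pos hT
  have hpi := Real.pi_pos
  have key : ∀ y : ℝ, y * (Real.log T / (2 * Real.pi)) ∈ Set.Icc (-β) β →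
      |y| ≤ 2 * Real.pi * β / Real.log T := by
    intro y hy
    have h1 : |y * (Real.log T / (2 * Real.pi))| ≤ β := abs_le.2 hy
    rw [abs_mul, abs_of_pos (by positivity : 0 < Real.log T / (2 * Real.pi))] at h1
    rw [le_div_iff₀ hl]
    rw [← mul_div_assoc, div_le_iff₀ (by positivity)] at h1
    linarith
  rintro j ⟨h1, h2, h3⟩
  exact ⟨h1, h2, key _ (h3 0)⟩

theorem box3 {T β : ℝ} (hT : 1 < T) :
    {j : Fin 3 → ℕ | Function.Injective j ∧ (∀ i, 1 ≤ j i ∧ γ (j i) ≤ T) ∧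
      ∀ i : Fin 2, (γ (j i.castSucc) - γ (j (Fin.last 2))) * (Real.log T / (2 * Real.pi)) ∈
        Set.Icc (-β) β} ⊆ Pool.Agent.W40.TCI.P3 T (2 * Real.pi * β / Real.log T) := by
  have hl := Real.log_pos hT
  have hpi := Real.pi_pos
  have key : ∀ y : ℝ, y * (Real.log T / (2 * Real.pi)) ∈ Set.Icc (-β) β →
      |y| ≤ 2 * Real.pi * β / Real.log T := by
    intro y hy
    have h1 : |y * (Real.log T / (2 * Real.pi))| ≤ β := abs_le.2 hy
    rw [abs_mul, abs_of_pos (by positivity : 0 < Real.log T / (2 * Real.pi))] at h1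
    rw [le_div_iff₀ hl]
    rw [← mul_div_assoc, div_le_iff₀ (by positivity)] at h1
    linarith
  rintro j ⟨h1, h2, h3⟩
  exact ⟨h1, h2, key _ (h3 0), key _ (h3 1)⟩

theorem Qx_eq (β : ℝ) : TC.Qx (2 * Real.pi * β) = G β := by
  unfold TC.Qx G
  ring_nf

/-- the general bounds -/
theorem bounds (RH : RiemannHypothesis) (β : ℝ) (hβ : 0 ≤ β)
    (h1 : 0 < 53 / 60 - 79 / 600 * (Real.pi * β) ^ 2) (h2 : 7 / 10 ≤ G β) (ε : ℝ) (hε : 0 < ε) :
    (∀ᶠ T : ℝ in atTop, (Nk 2 T (fun _ => -β) (fun _ => β) : ℝ) ≤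
      (151 / 1250 / G β ^ 2 + ε) * (T / (2 * Real.pi) * Real.log T)) ∧
    (∀ᶠ T : ℝ in atTop, (Nk 1 T (fun _ => -β) (fun _ => β) : ℝ) ≤
      (151 / 1250 / (151 / 1250 + (2 * G β - 1037 / 1000) ^ 2) + ε) *
        (T / (2 * Real.pi) * Real.log T)) ∧
    (∀ m : ℕ, 2 ≤ m → ∀ᶠ T : ℝ in atTop, (clusters m T β : ℝ) ≤
      (151 / 1250 / (151 / 1250 + (m * G β - 1037 / 1000) ^ 2) + ε) *
        (T / (2 * Real.pi) * Real.log T)) := by
  have hpi := Real.pi_pos
  set x := 2 * Real.pi * β with hx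
  have hx0 : 0 ≤ x := by positivity
  have hx1 : 0 < 53 / 60 - 79 / 2400 * x ^ 2 := by
    have : 79 / 2400 * x ^ 2 = 79 / 600 * (Real.pi * β) ^ 2 := by rw [hx]; ring
    rw [this]
    exact h1
  have hG : TC.Qx x = G β := Qx_eq β
  have hv : TC.vv = 151 / 1250 := by unfold TC.vv; norm_num
  have hE : TC.EE = 1037 / 1000 := rfl
  have hm : ∀ m : ℕ, 2 ≤ m → TC.vv / TC.EE ≤ m * TC.Qx x - TC.EE := by
    intro m hm
    have hm' : (2 : ℝ) ≤ m := by exact_mod_cast hm
    rw [hG, hv, hE]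
    have : 2 * (7 / 10) ≤ (m : ℝ) * G β := by
      apply mul_le_mul hm' h2 (by norm_num) (by linarith)
    norm_num
    linarith
  refine ⟨?_, ?_, ?_⟩
  · obtain ⟨T1, hT1⟩ := TC.close_triples RH x hx0 hx1 (by rw [hG]; exact h2) ε hε
    filter_upwards [eventually_ge_atTop T1, eventually_gt_atTop (1 : ℝ)] with T hT hT2
    have hl := Real.log_pos hT2
    have hr : 0 ≤ x / Real.log T := by positivity
    have h3 := hT1 T hT (x / Real.log T) hr (by rw [div_mul_cancel₀ _ hl.ne'])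
    have h4 := Pool.Agent.W40.TCI.P3_bound RH (T := T) hr
    have h5 : (Nk 2 T (fun _ => -β) (fun _ => β) : ℝ) ≤
        ((Pool.Agent.W40.TCI.P3 T (x / Real.log T)).ncard : ℝ) := by
      have hfin : (Pool.Agent.W40.TCI.P3 T (x / Real.log T)).Finite := by
        refine (Set.Finite.pi (fun _ : Fin 3 => Set.finite_Iic (SG.NZ T))).subset ?_
        rintro j ⟨-, h2, -⟩
        rw [Set.mem_pi]
        intro i _
        exact (SG.ord_le_iff (h2 i).1 T).mp (h2 i).2
      exact_mod_cast Set.ncard_le_ncard (box3 hT2) hfin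
    rw [hG, hv] at h3
    have h6 := (h5.trans h4).trans h3
    refine h6.trans (le_of_eq ?_)
    ring
  · obtain ⟨T1, hT1⟩ := TC.close_pairs RH x hx0 hx1 (by simpa using hm 2 le_rfl) ε hε
    filter_upwards [eventually_ge_atTop T1, eventually_gt_atTop (1 : ℝ)] with T hT hT2
    have hl := Real.log_pos hT2
    have hr : 0 ≤ x / Real.log T := by positivity
    have h3 := hT1 T hT (x / Real.log T) hr (by rw [div_mul_cancel₀ _ hl.ne'])
    have h4 := Pool.Agent.W40.TCI.P2_bound RH (T := T) hr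
    have h5 : (Nk 1 T (fun _ => -β) (fun _ => β) : ℝ) ≤
        ((Pool.Agent.W40.TCI.P2 T (x / Real.log T)).ncard : ℝ) := by
      have hfin : (Pool.Agent.W40.TCI.P2 T (x / Real.log T)).Finite := by
        refine (Set.Finite.pi (fun _ : Fin 2 => Set.finite_Iic (SG.NZ T))).subset ?_
        rintro j ⟨-, h2, -⟩
        rw [Set.mem_pi]
        intro i _
        exact (SG.ord_le_iff (h2 i).1 T).mp (h2 i).2
      exact_mod_cast Set.ncard_le_ncard (box2 hT2) hfin
    rw [hG, hv, hE] at h3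
    have h6 := (h5.trans h4).trans h3
    refine h6.trans (le_of_eq ?_)
    ring
  · intro m hm2
    obtain ⟨T1, hT1⟩ := TC.clusters RH m x hx0 hx1 (hm m hm2) (ε / 2) (by linarith)
    obtain ⟨L, hL, hloc⟩ := TC.GlobAux.loc RH
    filter_upwards [eventually_ge_atTop T1, eventually_gt_atTop (1 : ℝ),
      eventually_ge_atTop (3 : ℝ), eventually_ge_atTop (2 * Real.pi * L / (ε / 2)),
      Real.tendsto_log_atTop.eventually_ge_atTop (2 * x)] with T hT hT2 hT3 hT4 hT5
    have hl := Real.log_pos hT2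
    have hr : 0 ≤ x / Real.log T := by positivity
    have hr2 : x / Real.log T ≤ 1 / 2 := by
      rw [div_le_iff₀ hl]
      linarith
    have h3 := hT1 T hT (x / Real.log T) hr (by rw [div_mul_cancel₀ _ hl.ne'])
    have h4 := Pool.Agent.W40.TCI.Cl_bound RH m hr hr2 (T := T)
    have h7 := hloc T hT3 T
    have h5 : (clusters m T β : ℝ) = ((Pool.Agent.W40.TCI.Cl m T (x / Real.log T)).ncard : ℝ) := by
      unfold clusters Pool.Agent.W40.TCI.Cl
      congr 2
      ext n
      have e : {i : ℕ | 1 ≤ i ∧ |γ i - γ n| * (Real.log T / (2 * Real.pi)) ≤ β} =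
          {i : ℕ | 1 ≤ i ∧ |SG.ord i - SG.ord n| ≤ x / Real.log T} := by
        ext i
        have e2 : |γ i - γ n| = |SG.ord i - SG.ord n| := rfl
        rw [Set.mem_setOf_eq, Set.mem_setOf_eq, e2, ← mul_div_assoc, div_le_iff₀ (by positivity),
          le_div_iff₀ hl, hx]
        constructor
        · rintro ⟨a, b⟩
          exact ⟨a, by linarith⟩
        · rintro ⟨a, b⟩
          exact ⟨a, by linarith⟩
      rw [Set.mem_setOf_eq, Set.mem_setOf_eq, e]
      exact Iff.rfl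
    rw [hG, hv, hE] at h3
    have h8 : L * Real.log T ≤ ε / 2 * (T / (2 * Real.pi) * Real.log T) := by
      rw [div_le_iff₀ (by linarith)] at hT4
      have h9 : L ≤ ε / 2 * (T / (2 * Real.pi)) := by
        rw [← mul_div_assoc, le_div_iff₀ (by positivity)]
        linarith
      calc L * Real.log T ≤ (ε / 2 * (T / (2 * Real.pi))) * Real.log T :=
            mul_le_mul_of_nonneg_right h9 hl.le
        _ = _ := by ring
    rw [h5]
    have h10 := h4.trans (add_le_add h3 (h7.trans h8))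
    refine h10.trans (le_of_eq ?_)
    ring

/-- On the Riemann hypothesis, for every `β ≥ 0` with `G(β) ≥ 7/10` (and positive base) and every
`ε > 0`, for all large `T`: the number `N_3(T; [-β, β]^2)` of triples of zeros, the number
`N_2(T; [-β, β])` of pairs and, for every `m ≥ 2`, the number of zeros with at least `m - 1` other
zeros at normalised distance at most `β` are at most the given constants times
`(T / 2π) log T`. For `β = 1/50` the constants are `0.199`, `0.3075` and (`m = 3`) `0.0667`. -/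
theorem result (RH : RiemannHypothesis) :
    (∀ β : ℝ, 0 ≤ β → 0 < 53 / 60 - 79 / 600 * (Real.pi * β) ^ 2 → 7 / 10 ≤ G β →
      ∀ ε : ℝ, 0 < ε →
      (∀ᶠ T : ℝ in atTop, (Nk 2 T (fun _ => -β) (fun _ => β) : ℝ) ≤
        (151 / 1250 / G β ^ 2 + ε) * (T / (2 * Real.pi) * Real.log T)) ∧
      (∀ᶠ T : ℝ in atTop, (Nk 1 T (fun _ => -β) (fun _ => β) : ℝ) ≤
        (151 / 1250 / (151 / 1250 + (2 * G β - 1037 / 1000) ^ 2) + ε) *
          (T / (2 * Real.pi) * Real.log T)) ∧
      (∀ m : ℕ, 2 ≤ m → ∀ᶠ T : ℝ in atTop, (clusters m T β : ℝ) ≤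
        (151 / 1250 / (151 / 1250 + (m * G β - 1037 / 1000) ^ 2) + ε) *
          (T / (2 * Real.pi) * Real.log T))) ∧
    (∀ᶠ T : ℝ in atTop,
      (Nk 2 T (fun _ => -(1 / 50)) (fun _ => 1 / 50) : ℝ) ≤
        199 / 1000 * (T / (2 * Real.pi) * Real.log T) ∧
      (Nk 1 T (fun _ => -(1 / 50)) (fun _ => 1 / 50) : ℝ) ≤
        3075 / 10000 * (T / (2 * Real.pi) * Real.log T) ∧
      (clusters 3 T (1 / 50) : ℝ) ≤ 667 / 10000 * (T / (2 * Real.pi) * Real.log T)) := by
  refine ⟨fun β h0 h1 h2 ε hε => bounds RH β h0 h1 h2 ε hε, ?_⟩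
  have hpi := Real.pi_pos
  have hpi2 : Real.pi ^ 2 ≤ 9.8697 := by
    have := Real.pi_lt_d6
    nlinarith
  have hb : 0.8828 ≤ 53 / 60 - 79 / 600 * (Real.pi * (1 / 50)) ^ 2 := by
    have : (Real.pi * (1 / 50)) ^ 2 = Real.pi ^ 2 / 2500 := by ring
    rw [this]
    linarith
  have hG : 0.77933 ≤ G (1 / 50) := by
    unfold G
    nlinarith
  obtain ⟨h3, h2, h1⟩ := bounds RH (1 / 50) (by norm_num) (by linarith) (by linarith) (1 / 100000)
    (by norm_num)
  filter_upwards [h3, h2, h1 3 (by norm_num), eventually_gt_atTop (1 : ℝ)] with T a3 a2 a1 hT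
  have hl := Real.log_pos hT
  have hX : 0 ≤ T / (2 * Real.pi) * Real.log T := by positivity
  refine ⟨a3.trans (mul_le_mul_of_nonneg_right ?_ hX), a2.trans (mul_le_mul_of_nonneg_right ?_ hX),
    a1.trans (mul_le_mul_of_nonneg_right ?_ hX)⟩
  · have e : (0.6073 : ℝ) ≤ G (1 / 50) ^ 2 := by nlinarith
    have : 151 / 1250 / G (1 / 50) ^ 2 ≤ 151 / 1250 / 0.6073 :=
      div_le_div_of_nonneg_left (by norm_num) (by norm_num) e
    refine (add_le_add_left this _).trans ?_
    norm_num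
  · have e : (0.2721 : ℝ) ≤ (2 * G (1 / 50) - 1037 / 1000) ^ 2 := by nlinarith
    have : 151 / 1250 / (151 / 1250 + (2 * G (1 / 50) - 1037 / 1000) ^ 2) ≤
        151 / 1250 / (151 / 1250 + 0.2721) :=
      div_le_div_of_nonneg_left (by norm_num) (by norm_num) (by linarith)
    refine (add_le_add_left this _).trans ?_
    norm_num
  · have e : (1.6925 : ℝ) ≤ (((3 : ℕ) : ℝ) * G (1 / 50) - 1037 / 1000) ^ 2 := by
      push_cast
      nlinarith
    have : 151 / 1250 / (151 / 1250 + (((3 : ℕ) : ℝ) * G (1 / 50) - 1037 / 1000) ^ 2) ≤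
        151 / 1250 / (151 / 1250 + 1.6925) :=
      div_le_div_of_nonneg_left (by norm_num) (by norm_num) (by linarith)
    refine (add_le_add_left this _).trans ?_
    norm_num

end Pool.Agent.Results.MP_67227b_nt.CloseTriples
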